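import Pool.Agent.H57K2.Colour3

/-!
# The link sums of level three vanish, over every field
-/

set_option autoImplicit false

namespace Pool.Agent.H57K2

variable {E K : Type*} [DecidableEq E] [AddCommGroup K] [Fintype E]

open Classical in
/-- Double counting. -/
theorem binom_sum (F : Finset E → K) (P : Finset E → Prop) (C Z : Finset E) (i : ℕ) :
    ∑ J ∈ Z.powersetCard i, ∑ B ∈ Finset.univ.filter (fun B => C ∪ J ⊆ B ∧ P B), F B =
      ∑ B ∈ Finset.univ.filter (fun B => C ⊆ B ∧ P B), ((B ∩ Z).card.choose i) • F B := by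
  have h2 : ∀ J ∈ Z.powersetCard i,
      ∑ B ∈ Finset.univ.filter (fun B => C ∪ J ⊆ B ∧ P B), F B =
      ∑ B ∈ Finset.univ.filter (fun B => C ⊆ B ∧ P B), if J ⊆ B then F B else 0 := by
    intro J _
    rw [← Finset.sum_filter, Finset.filter_filter]
    refine Finset.sum_congr (Finset.filter_congr fun B _ => ?_) fun _ _ => rfl
    rw [Finset.union_subset_iff]
    tauto
  rw [Finset.sum_congr rfl h2, Finset.sum_comm]
  refine Finset.sum_congr rfl fun B _ => ?_
  rw [← Finset.sum_filter, Finset.sum_const]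
  have h4 : (Z.powersetCard i).filter (fun J => J ⊆ B) = (B ∩ Z).powersetCard i := by
    ext J
    simp only [Finset.mem_filter, Finset.mem_powersetCard, Finset.subset_inter_iff]
    tauto
  rw [h4, Finset.card_powersetCard]

/-- Extension of an independent set by elements of another one. -/
theorem extend (N : Matroid E) {A : Finset E} (hA : N.Indep (A : Set E)) :
    ∀ n : ℕ, ∀ I : Finset E, N.Indep (I : Set E) → I.card + n = A.card →
      ∃ J : Finset E, I ⊆ J ∧ J ⊆ I ∪ A ∧ J.card = A.card ∧ N.Indep (J : Set E) := by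
  intro n
  induction n with
  | zero =>
    intro I hI hc
    exact ⟨I, Finset.Subset.refl I, Finset.subset_union_left, by omega, hI⟩
  | succ n ih =>
    intro I hI hc
    obtain ⟨e, he, he2, hie⟩ := hI.augment_finset hA (by omega)
    have hie' : N.Indep ((insert e I : Finset E) : Set E) := by
      rw [Finset.coe_insert]
      exact hie
    obtain ⟨J, h1, h2, h3, h4⟩ := ih (insert e I) hie' (by
      rw [Finset.card_insert_of_notMem he2]
      omega)
    refine ⟨J, (Finset.subset_insert e I).trans h1, h2.trans ?_, h3, h4⟩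
    intro x hx
    rw [Finset.mem_union, Finset.mem_insert] at hx
    rw [Finset.mem_union]
    rcases hx with (rfl | hx) | hx
    · exact Or.inr he
    · exact Or.inl hx
    · exact Or.inr hx

section main

variable (k : ℕ) (F : Finset E → K) (P : Finset E → Prop)

/-- Case of no pair at distance two: some common independent `(k - 1)`-set has no extension. -/
theorem colour_far (N₁ N₂ : Matroid E)
    (hF : ∀ A : Finset E, F A ≠ 0 ↔
      A.card = k ∧ N₁.Indep (A : Set E) ∧ N₂.Indep (A : Set E))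
    {C₀ A A' : Finset E} (hC : C₀.card + 3 = k) (hA : C₀ ⊆ A) (hA' : C₀ ⊆ A')
    (hFA : F A ≠ 0) (hFA' : F A' ≠ 0) (hPA : P A) (hPA' : ¬ P A')
    (hno : ∀ B B', C₀ ⊆ B → C₀ ⊆ B' → F B ≠ 0 → F B' ≠ 0 → P B → ¬ P B' →
      (B ∩ B').card + 3 ≤ k) :
    ∃ Z : Finset E, Disjoint Z C₀ ∧ (∀ B, C₀ ⊆ B → F B ≠ 0 → ¬ B ⊆ C₀ ∪ Z) ∧
      (∀ B, C₀ ⊆ B → F B ≠ 0 → ¬ Disjoint B Z) := by
  classical
  obtain ⟨cA, iA1, iA2⟩ := (hF A).1 hFA
  obtain ⟨cA', iA1', iA2'⟩ := (hF A').1 hFA'
  have hAA := hno A A' hA hA' hFA hFA' hPA hPA'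
  have h0 : C₀ ⊆ A ∩ A' := Finset.subset_inter hA hA'
  have h0c := Finset.card_le_card h0
  have hAd : (A \ A').card = 3 := by
    have := Finset.card_sdiff_add_card_inter A A'
    omega
  have hA'd : (A' \ A).card = 3 := by
    have h1 := Finset.card_sdiff_add_card_inter A' A
    rw [Finset.inter_comm] at h1
    omega
  obtain ⟨d, hd⟩ : (A' \ A).Nonempty := by
    rw [← Finset.card_pos]
    omega
  obtain ⟨hdA', hdA⟩ := Finset.mem_sdiff.1 hd
  have ex : ∀ N : Matroid E, N.Indep (A : Set E) → N.Indep (A' : Set E) →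
      ∃ a ∈ A \ A', N.Indep ((insert d (A.erase a) : Finset E) : Set E) := by
    intro N h1 h2
    have hI : N.Indep ((insert d (A ∩ A') : Finset E) : Set E) := by
      refine h2.subset ?_
      exact_mod_cast Finset.insert_subset hdA' Finset.inter_subset_right
    have hIc : (insert d (A ∩ A')).card = (A ∩ A').card + 1 :=
      Finset.card_insert_of_notMem fun h => hdA (Finset.mem_inter.1 h).1
    obtain ⟨T, hIT, hTI, hcT0, hT'⟩ := extend N h1 (A.card - (insert d (A ∩ A')).card)
      (insert d (A ∩ A')) hI (by omega)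
    have hcT : T.card = k := by omega
    have hIT' : insert d (A ∩ A') ⊆ T := hIT
    have hTI' : T ⊆ insert d A := by
      intro x hx
      rcases Finset.mem_union.1 (hTI hx) with h7 | h6
      · rcases Finset.mem_insert.1 h7 with h8 | h8
        · rw [h8]
          exact Finset.mem_insert_self d A
        · exact Finset.mem_insert_of_mem (Finset.mem_inter.1 h8).1
      · exact Finset.mem_insert_of_mem h6
    have hins : (insert d A).card = k + 1 := by
      rw [Finset.card_insert_of_notMem hdA, cA]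
    obtain ⟨a, ha, haT⟩ : ∃ a ∈ insert d A, a ∉ T := by
      by_contra hcon
      push Not at hcon
      have := Finset.card_le_card (show insert d A ⊆ T from hcon)
      omega
    have had : a ≠ d := by
      rintro rfl
      exact haT (hIT' (Finset.mem_insert_self _ _))
    have haA : a ∈ A := (Finset.mem_insert.1 ha).resolve_left had
    refine ⟨a, Finset.mem_sdiff.2 ⟨haA, fun h =>
      haT (hIT' (Finset.mem_insert_of_mem (Finset.mem_inter.2 ⟨haA, h⟩)))⟩, ?_⟩
    have hsub : T ⊆ (insert d A).erase a := fun x hx =>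
      Finset.mem_erase.2 ⟨fun h => haT (by rw [← h]; exact hx), hTI' hx⟩
    have hce : ((insert d A).erase a).card = k := by
      rw [Finset.card_erase_of_mem ha, hins]
      rfl
    have hTe : T = (insert d A).erase a := Finset.eq_of_subset_of_card_le hsub (by omega)
    have hTf : insert d (A.erase a) = T := by
      rw [hTe, Finset.erase_insert_of_ne (Ne.symm had)]
    rw [hTf]
    exact hT'
  obtain ⟨a, ha, hai⟩ := ex N₁ iA1 iA1'
  obtain ⟨b, hb, hbi⟩ := ex N₂ iA2 iA2'
  obtain ⟨b', hb', hne, hsub⟩ : ∃ b' ∈ A \ A', a ≠ b' ∧ (b' = b ∨ a = b) := by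
    by_cases h : a = b
    · obtain ⟨b', hb', hne⟩ : ∃ b' ∈ A \ A', b' ≠ a := by
        by_contra hcon
        push Not at hcon
        have h1 : A \ A' ⊆ {a} := fun x hx => Finset.mem_singleton.2 (hcon x hx)
        have := Finset.card_le_card h1
        rw [Finset.card_singleton] at this
        omega
      exact ⟨b', hb', Ne.symm hne, Or.inr h⟩
    · exact ⟨b, hb, h, Or.inl rfl⟩
  obtain ⟨haA, haA'⟩ := Finset.mem_sdiff.1 ha
  obtain ⟨hbA, hbA'⟩ := Finset.mem_sdiff.1 hb'
  -- `G = A - a - b' + d`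
  obtain ⟨G, hG⟩ : ∃ G, G = insert d ((A.erase a).erase b') := ⟨_, rfl⟩
  have hG1 : N₁.Indep (G : Set E) := by
    refine hai.subset ?_
    rw [hG]
    exact_mod_cast Finset.insert_subset_insert d (Finset.erase_subset b' (A.erase a))
  have hG2 : N₂.Indep (G : Set E) := by
    refine hbi.subset ?_
    rw [hG]
    have : insert d ((A.erase a).erase b') ⊆ insert d (A.erase b) := by
      refine Finset.insert_subset_insert d fun x hx => ?_
      rw [Finset.mem_erase, Finset.mem_erase] at hx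
      rw [Finset.mem_erase]
      refine ⟨?_, hx.2.2⟩
      rcases hsub with h | h
      · rw [← h]
        exact hx.1
      · rw [← h]
        exact hx.2.1
    exact_mod_cast this
  have hGe : ((A.erase a).erase b').card + 2 = k := by
    rw [Finset.card_erase_of_mem, Finset.card_erase_of_mem haA]
    · have : 3 ≤ A.card := by omega
      omega
    · rw [Finset.mem_erase]
      exact ⟨Ne.symm hne, hbA⟩
  have hGc : G.card + 1 = k := by
    rw [hG, Finset.card_insert_of_notMem]
    · omega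
    · intro h
      exact hdA (Finset.mem_of_mem_erase (Finset.mem_of_mem_erase h))
  have hC₀G : C₀ ⊆ (A.erase a).erase b' := by
    intro x hx
    rw [Finset.mem_erase, Finset.mem_erase]
    refine ⟨?_, ?_, hA hx⟩
    · rintro rfl
      exact hbA' (hA' hx)
    · rintro rfl
      exact haA' (hA' hx)
  have hC₀G' : C₀ ⊆ G := by
    rw [hG]
    exact hC₀G.trans (Finset.subset_insert d _)
  -- no extension
  have noext : ∀ e, e ∉ G → ¬ (N₁.Indep ((insert e G : Finset E) : Set E) ∧
      N₂.Indep ((insert e G : Finset E) : Set E)) := by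
    rintro e he ⟨h1, h2⟩
    have hFB : F (insert e G) ≠ 0 := by
      rw [hF]
      refine ⟨?_, h1, h2⟩
      rw [Finset.card_insert_of_notMem he]
      exact hGc
    have hCB : C₀ ⊆ insert e G := hC₀G'.trans (Finset.subset_insert e G)
    by_cases hPB : P (insert e G)
    · have h3 := hno _ _ hCB hA' hFB hFA' hPB hPA'
      have h4 : insert d C₀ ⊆ insert e G ∩ A' := by
        refine Finset.subset_inter ?_ (Finset.insert_subset hdA' hA')
        refine Finset.insert_subset ?_ hCB
        rw [hG]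
        exact Finset.mem_insert_of_mem (Finset.mem_insert_self d _)
      have h5 := Finset.card_le_card h4
      rw [Finset.card_insert_of_notMem (fun h => hdA (hA h))] at h5
      omega
    · have h3 := hno _ _ hA hCB hFA hFB hPA hPB
      have h4 : (A.erase a).erase b' ⊆ A ∩ insert e G := by
        refine Finset.subset_inter ?_ ?_
        · exact (Finset.erase_subset _ _).trans (Finset.erase_subset _ _)
        · rw [hG]
          exact (Finset.subset_insert d _).trans (Finset.subset_insert e _)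
      have h5 := Finset.card_le_card h4
      omega
  refine ⟨Finset.univ.filter (fun e => e ∉ C₀ ∧
    ¬ (e ∉ G ∧ N₁.Indep ((insert e G : Finset E) : Set E))), ?_, ?_, ?_⟩
  · rw [Finset.disjoint_left]
    intro e he
    exact (Finset.mem_filter.1 he).2.1
  · intro B hB hFB hsubZ
    obtain ⟨cB, iB1, iB2⟩ := (hF B).1 hFB
    obtain ⟨e, he, he2, hie⟩ := hG1.augment_finset iB1 (by omega)
    have hie' : N₁.Indep ((insert e G : Finset E) : Set E) := by
      rw [Finset.coe_insert]
      exact hie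
    rcases Finset.mem_union.1 (hsubZ he) with h4 | h4
    · exact he2 (hC₀G' h4)
    · exact (Finset.mem_filter.1 h4).2.2 ⟨he2, hie'⟩
  · intro B hB hFB hdis
    obtain ⟨cB, iB1, iB2⟩ := (hF B).1 hFB
    obtain ⟨e, he, he2, hie⟩ := hG2.augment_finset iB2 (by omega)
    have hie' : N₂.Indep ((insert e G : Finset E) : Set E) := by
      rw [Finset.coe_insert]
      exact hie
    refine Finset.disjoint_left.1 hdis he (Finset.mem_filter.2 ⟨Finset.mem_univ e,
      fun h => he2 (hC₀G' h), fun h => noext e he2 ⟨h.2, hie'⟩⟩)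

variable (htot : ∀ C : Finset E, C.card < k →
  ∑ A ∈ Finset.univ.filter (fun A => C ⊆ A), F A = 0)

open Classical in
include htot in
/-- If the sums of the levels one and two vanish and a set `Z` contains no common base over `C₀` and
all common bases over `C₀` which avoid `Z` are outside of `P`, then the sum of `P` vanishes. -/
theorem sum_of_avoid (N₁ N₂ : Matroid E)
    (hF : ∀ A : Finset E, F A ≠ 0 ↔
      A.card = k ∧ N₁.Indep (A : Set E) ∧ N₂.Indep (A : Set E))
    (hP : ∀ A A', P A → F A ≠ 0 → F A' ≠ 0 → k ≤ (A ∩ A').card + 1 → P A')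
    {C₀ Z : Finset E} (hC : C₀.card + 3 = k) (hZ : Disjoint Z C₀)
    (h1 : ∀ B, C₀ ⊆ B → F B ≠ 0 → ¬ B ⊆ C₀ ∪ Z)
    (h2 : ∀ B, C₀ ⊆ B → F B ≠ 0 → Disjoint B Z → ¬ P B) :
    ∑ A ∈ Finset.univ.filter (fun A => C₀ ⊆ A ∧ P A), F A = 0 := by
  have hcard : ∀ A, F A ≠ 0 → A.card = k := fun A h => ((hF A).1 h).1
  have b1 := binom_sum F P C₀ Z 1
  have b2 := binom_sum F P C₀ Z 2
  have z1 : ∑ J ∈ Z.powersetCard 1,
      ∑ B ∈ Finset.univ.filter (fun B => C₀ ∪ J ⊆ B ∧ P B), F B = 0 := by
    refine Finset.sum_eq_zero fun J hJ => ?_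
    obtain ⟨hJ1, hJ2⟩ := Finset.mem_powersetCard.1 hJ
    refine sum_two k F htot P N₁ N₂ hF hP (C₀ ∪ J) ?_
    rw [Finset.card_union_of_disjoint (Finset.disjoint_of_subset_left hJ1 hZ).symm, hJ2]
    omega
  have z2 : ∑ J ∈ Z.powersetCard 2,
      ∑ B ∈ Finset.univ.filter (fun B => C₀ ∪ J ⊆ B ∧ P B), F B = 0 := by
    refine Finset.sum_eq_zero fun J hJ => ?_
    obtain ⟨hJ1, hJ2⟩ := Finset.mem_powersetCard.1 hJ
    refine sum_one k F htot P hcard hP (C₀ ∪ J) ?_
    rw [Finset.card_union_of_disjoint (Finset.disjoint_of_subset_left hJ1 hZ).symm, hJ2]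
    omega
  rw [z1] at b1
  rw [z2] at b2
  have h3 : ∑ A ∈ Finset.univ.filter (fun A => C₀ ⊆ A ∧ P A), F A =
      ∑ B ∈ Finset.univ.filter (fun B => C₀ ⊆ B ∧ P B), ((B ∩ Z).card.choose 1) • F B -
      ∑ B ∈ Finset.univ.filter (fun B => C₀ ⊆ B ∧ P B), ((B ∩ Z).card.choose 2) • F B := by
    rw [← Finset.sum_sub_distrib]
    refine Finset.sum_congr rfl fun B hB => ?_
    rw [Finset.mem_filter] at hB
    by_cases hFB : F B = 0
    · simp [hFB]
    · have cB := hcard B hFB
      have hle : (B ∩ Z).card ≤ 2 := by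
        by_contra hcon
        refine h1 B hB.2.1 hFB ?_
        have e1 : (C₀ ∪ (B ∩ Z)).card = C₀.card + (B ∩ Z).card :=
          Finset.card_union_of_disjoint
            (Finset.disjoint_of_subset_left Finset.inter_subset_right hZ).symm
        have e2 : C₀ ∪ (B ∩ Z) ⊆ B := Finset.union_subset hB.2.1 Finset.inter_subset_left
        have e3 : C₀ ∪ (B ∩ Z) = B := Finset.eq_of_subset_of_card_le e2 (by omega)
        rw [← e3]
        exact Finset.union_subset_union_right Finset.inter_subset_right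
      have hpos : (B ∩ Z).card ≠ 0 := by
        intro h0
        rw [Finset.card_eq_zero] at h0
        exact h2 B hB.2.1 hFB (Finset.disjoint_iff_inter_eq_empty.2 h0) hB.2.2
      have hcases : (B ∩ Z).card = 1 ∨ (B ∩ Z).card = 2 := by omega
      rcases hcases with h | h
      · rw [h]
        simp
      · rw [h]
        simp [two_nsmul]
  rw [h3, ← b1, ← b2, sub_zero]

open Classical in
include htot in
/-- Level three: the sum over the members of `P` which contain a `(k - 3)`-set vanishes, in every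
characteristic. -/
theorem sum_three' (N₁ N₂ : Matroid E)
    (hF : ∀ A : Finset E, F A ≠ 0 ↔
      A.card = k ∧ N₁.Indep (A : Set E) ∧ N₂.Indep (A : Set E))
    (hP : ∀ A A', P A → F A ≠ 0 → F A' ≠ 0 → k ≤ (A ∩ A').card + 1 → P A')
    (C₀ : Finset E) (hC : C₀.card + 3 = k) :
    ∑ A ∈ Finset.univ.filter (fun A => C₀ ⊆ A ∧ P A), F A = 0 := by
  have hP' : ∀ A A', (fun X => ¬ P X) A → F A ≠ 0 → F A' ≠ 0 → k ≤ (A ∩ A').card + 1 →
      (fun X => ¬ P X) A' := by
    intro A A' h h1 h2 h3 h4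
    refine h (hP A' A h4 h2 h1 ?_)
    rw [Finset.inter_comm]
    exact h3
  have hsplit : ∑ A ∈ Finset.univ.filter (fun A => C₀ ⊆ A ∧ P A), F A +
      ∑ A ∈ Finset.univ.filter (fun A => C₀ ⊆ A ∧ ¬ P A), F A = 0 := by
    rw [← htot C₀ (by omega), ← Finset.filter_filter, ← Finset.filter_filter]
    exact Finset.sum_filter_add_sum_filter_not _ _ _
  have fin : ∀ Z : Finset E, Disjoint Z C₀ → (∀ B, C₀ ⊆ B → F B ≠ 0 → ¬ B ⊆ C₀ ∪ Z) →
      ((∀ B, C₀ ⊆ B → F B ≠ 0 → Disjoint B Z → P B) ∨
        (∀ B, C₀ ⊆ B → F B ≠ 0 → Disjoint B Z → ¬ P B)) →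
      ∑ A ∈ Finset.univ.filter (fun A => C₀ ⊆ A ∧ P A), F A = 0 := by
    rintro Z z1 z2 (z3 | z3)
    · have h := sum_of_avoid k F (fun X => ¬ P X) htot N₁ N₂ hF hP' hC z1 z2
        (fun B hB hFB hd => not_not.2 (z3 B hB hFB hd))
      have h' : ∑ A ∈ Finset.univ.filter (fun A => C₀ ⊆ A ∧ ¬ P A), F A = 0 := by
        convert h
      rw [h', add_zero] at hsplit
      exact hsplit
    · exact sum_of_avoid k F P htot N₁ N₂ hF hP hC z1 z2 z3
  by_cases hA : ∃ A, C₀ ⊆ A ∧ P A ∧ F A ≠ 0
  swap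
  · push Not at hA
    refine Finset.sum_eq_zero fun B hB => ?_
    rw [Finset.mem_filter] at hB
    exact hA B hB.2.1 hB.2.2
  by_cases hA' : ∃ A', C₀ ⊆ A' ∧ ¬ P A' ∧ F A' ≠ 0
  swap
  · push Not at hA'
    have h0 : ∑ A ∈ Finset.univ.filter (fun A => C₀ ⊆ A ∧ ¬ P A), F A = 0 := by
      refine Finset.sum_eq_zero fun B hB => ?_
      rw [Finset.mem_filter] at hB
      exact hA' B hB.2.1 hB.2.2
    rw [h0, add_zero] at hsplit
    exact hsplit
  obtain ⟨A, hCA, hPA, hFA⟩ := hA
  obtain ⟨A', hCA', hPA', hFA'⟩ := hA'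
  by_cases hnear : ∃ B B', C₀ ⊆ B ∧ C₀ ⊆ B' ∧ F B ≠ 0 ∧ F B' ≠ 0 ∧ P B ∧ ¬ P B' ∧
      k ≤ (B ∩ B').card + 2
  · obtain ⟨B, B', hB, hB', hFB, hFB', hPB, hPB', hk⟩ := hnear
    obtain ⟨cB, -, -⟩ := (hF B).1 hFB
    obtain ⟨cB', -, -⟩ := (hF B').1 hFB'
    have hle : (B ∩ B').card + 2 ≤ k := by
      by_contra hcon
      exact hPB' (hP B B' hPB hFB hFB' (by omega))
    have hI : (B ∩ B').card = C₀.card + 1 := by omega
    have hsub : C₀ ⊆ B ∩ B' := Finset.subset_inter hB hB'
    obtain ⟨c, hc1, hc2⟩ : ∃ c, c ∉ C₀ ∧ insert c C₀ = B ∩ B' := by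
      have h1 : ((B ∩ B') \ C₀).card = 1 := by
        rw [Finset.card_sdiff_of_subset hsub]
        omega
      obtain ⟨c, hc⟩ := Finset.card_eq_one.1 h1
      have hcm : c ∈ (B ∩ B') \ C₀ := by rw [hc]; exact Finset.mem_singleton_self c
      refine ⟨c, (Finset.mem_sdiff.1 hcm).2, ?_⟩
      have h3 : B ∩ B' = ((B ∩ B') \ C₀) ∪ C₀ := (Finset.sdiff_union_of_subset hsub).symm
      rw [h3, hc]
      rfl
    have pair : ∀ X : Finset E, B ∩ B' ⊆ X → X.card = k →
        ∃ x y, X = insert x (insert y (insert c C₀)) := by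
      intro X hX hk
      have h1 : (X \ (B ∩ B')).card = 2 := by
        rw [Finset.card_sdiff_of_subset hX]
        omega
      obtain ⟨x, y, hxy, h2⟩ := Finset.card_eq_two.1 h1
      refine ⟨x, y, ?_⟩
      have h3 : X = (X \ (B ∩ B')) ∪ (B ∩ B') := (Finset.sdiff_union_of_subset hX).symm
      rw [h3, h2, hc2]
      ext z
      simp
    obtain ⟨a1, a2, hBe⟩ := pair B Finset.inter_subset_left cB
    obtain ⟨d1, d2, hBe'⟩ := pair B' Finset.inter_subset_right cB'
    rw [hBe] at hFB hPB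
    rw [hBe'] at hFB' hPB'
    obtain ⟨Z, z1, z2, z3⟩ := colour_near k F P N₁ N₂ hF hP hc1 hC hFB hFB' hPB hPB'
    exact fin Z z1 z2 z3
  · push Not at hnear
    obtain ⟨Z, z1, z2, z3⟩ := colour_far k F P N₁ N₂ hF hC hCA hCA' hFA hFA' hPA hPA'
      (fun B B' h1 h2 h3 h4 h5 h6 => by
        have := hnear B B' h1 h2 h3 h4 h5 h6
        omega)
    exact fin Z z1 z2 (Or.inr fun B hB hFB hd => absurd hd (z3 B hB hFB))

open Classical in
include htot in
/-- The same with two hypotheses which are not needed. -/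
theorem sum_three (N₁ N₂ : Matroid E)
    (_hb₁ : ∀ A : Finset E, N₁.Indep (A : Set E) → A.card = k → N₁.IsBase (A : Set E))
    (_hb₂ : ∀ A : Finset E, N₂.Indep (A : Set E) → A.card = k → N₂.IsBase (A : Set E))
    (hF : ∀ A : Finset E, F A ≠ 0 ↔
      A.card = k ∧ N₁.Indep (A : Set E) ∧ N₂.Indep (A : Set E))
    (hP : ∀ A A', P A → F A ≠ 0 → F A' ≠ 0 → k ≤ (A ∩ A').card + 1 → P A')
    (C₀ : Finset E) (hC : C₀.card + 3 = k) :
    ∑ A ∈ Finset.univ.filter (fun A => C₀ ⊆ A ∧ P A), F A = 0 :=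
  sum_three' k F P htot N₁ N₂ hF hP C₀ hC

end main

end Pool.Agent.H57K2
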