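import Pool.Agent.H57K2.Three

/-!
# Links of rank three: a colouring in which one class contains no common base
-/

set_option autoImplicit false

namespace Pool.Agent.H57K2

variable {E K : Type*} [DecidableEq E] [AddCommGroup K]

section main

variable (k : ℕ) (F : Finset E → K) (P : Finset E → Prop)

/-- Structure of a common base over `C₀` which avoids the closure of `C + a1` in `N₁`. -/
theorem avoid (N₁ N₂ : Matroid E)
    (hF : ∀ A : Finset E, F A ≠ 0 ↔
      A.card = k ∧ N₁.Indep (A : Set E) ∧ N₂.Indep (A : Set E))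
    (hP : ∀ A A', P A → F A ≠ 0 → F A' ≠ 0 → k ≤ (A ∩ A').card + 1 → P A')
    {C₀ : Finset E} {c a1 a2 d1 d2 : E} (hc : c ∉ C₀) (hC : C₀.card + 3 = k)
    (hFA : F (insert a1 (insert a2 (insert c C₀))) ≠ 0)
    (hFA' : F (insert d1 (insert d2 (insert c C₀))) ≠ 0)
    (hPA : P (insert a1 (insert a2 (insert c C₀))))
    (hPA' : ¬ P (insert d1 (insert d2 (insert c C₀))))
    {B : Finset E} (hB : C₀ ⊆ B) (hFB : F B ≠ 0)
    (hav : ∀ e ∈ B, e ∉ C₀ → Bs N₁ (insert c C₀) a1 e) :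
    ∃ p u, p ∈ B ∧ u ∈ B ∧ p ∉ C₀ ∧ u ∉ C₀ ∧ p ≠ u ∧
      ¬ N₂.Indep ((insert p (insert c C₀) : Finset E) : Set E) ∧
      Bs N₁ (insert c C₀) a1 p ∧ Bs N₁ (insert c C₀) a2 p ∧ u ∉ insert c C₀ ∧
      N₁.Indep ((insert u (insert c C₀) : Finset E) : Set E) ∧
      N₂.Indep ((insert u (insert c C₀) : Finset E) : Set E) := by
  have cC : (insert c C₀).card = C₀.card + 1 := Finset.card_insert_of_notMem hc
  have hC' : (insert c C₀).card + 2 = k := by omega
  obtain ⟨b1, b2, b3⟩ := (hF _).1 hFB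
  obtain ⟨g1, g2, g3⟩ := (hF _).1 hFA
  have A1 : Bs N₁ (insert c C₀) a1 a2 := ⟨by omega, g2⟩
  have A2 : Bs N₂ (insert c C₀) a1 a2 := ⟨by omega, g3⟩
  -- `p`
  have hp : ∃ p ∈ B, p ∉ C₀ ∧ Bs N₁ (insert c C₀) a2 p := by
    obtain ⟨ha2, ha2i⟩ := A1.right
    have h1 : (insert a2 (insert c C₀)).card = (insert c C₀).card + 1 :=
      Finset.card_insert_of_notMem ha2
    obtain ⟨e, he, he2, hie⟩ := ha2i.augment_finset b2 (by omega)
    have hie' : N₁.Indep ((insert e (insert a2 (insert c C₀)) : Finset E) : Set E) := by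
      rw [Finset.coe_insert]
      exact hie
    have h2 : (insert e (insert a2 (insert c C₀))).card = (insert c C₀).card + 2 := by
      rw [Finset.card_insert_of_notMem he2, h1]
    refine ⟨e, he, fun h => he2 ?_, Bs.symm ⟨h2, hie'⟩⟩
    exact Finset.mem_insert_of_mem (Finset.mem_insert_of_mem h)
  obtain ⟨p, hpB, hpC₀, hp2⟩ := hp
  have hp1 := hav p hpB hpC₀
  obtain ⟨hpC, hpi⟩ := hp1.right
  have hpn : ¬ N₂.Indep ((insert p (insert c C₀) : Finset E) : Set E) := fun h =>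
    grid k F P N₁ N₂ hF hP hC' hFA hFA' hPA hPA' hpC hpi h ⟨hp1, hp2⟩
  -- `u`
  have hCi : N₂.Indep ((insert c C₀ : Finset E) : Set E) := by
    refine g3.subset ?_
    exact_mod_cast (Finset.subset_insert a2 (insert c C₀)).trans (Finset.subset_insert a1 _)
  obtain ⟨u, huB, huC, hui⟩ := hCi.augment_finset b3 (by omega)
  have hui' : N₂.Indep ((insert u (insert c C₀) : Finset E) : Set E) := by
    rw [Finset.coe_insert]
    exact hui
  have huC₀ : u ∉ C₀ := fun h => huC (Finset.mem_insert_of_mem h)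
  refine ⟨p, u, hpB, huB, hpC₀, huC₀, ?_, hpn, hp1, hp2, huC, (hav u huB huC₀).right.2, hui'⟩
  rintro rfl
  exact hpn hui'

variable [Fintype E]

/-- Case of a pair of common bases at distance two. -/
theorem colour_near (N₁ N₂ : Matroid E)
    (hF : ∀ A : Finset E, F A ≠ 0 ↔
      A.card = k ∧ N₁.Indep (A : Set E) ∧ N₂.Indep (A : Set E))
    (hP : ∀ A A', P A → F A ≠ 0 → F A' ≠ 0 → k ≤ (A ∩ A').card + 1 → P A')
    {C₀ : Finset E} {c a1 a2 d1 d2 : E} (hc : c ∉ C₀) (hC : C₀.card + 3 = k)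
    (hFA : F (insert a1 (insert a2 (insert c C₀))) ≠ 0)
    (hFA' : F (insert d1 (insert d2 (insert c C₀))) ≠ 0)
    (hPA : P (insert a1 (insert a2 (insert c C₀))))
    (hPA' : ¬ P (insert d1 (insert d2 (insert c C₀)))) :
    ∃ Z : Finset E, Disjoint Z C₀ ∧ (∀ B, C₀ ⊆ B → F B ≠ 0 → ¬ B ⊆ C₀ ∪ Z) ∧
      ((∀ B, C₀ ⊆ B → F B ≠ 0 → Disjoint B Z → P B) ∨
        (∀ B, C₀ ⊆ B → F B ≠ 0 → Disjoint B Z → ¬ P B)) := by
  classical
  have hcard : ∀ A, F A ≠ 0 → A.card = k := fun A h => ((hF A).1 h).1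
  have hF' : ∀ A : Finset E, F A ≠ 0 ↔
      A.card = k ∧ N₂.Indep (A : Set E) ∧ N₁.Indep (A : Set E) := by
    intro A
    rw [hF]
    tauto
  have cC : (insert c C₀).card = C₀.card + 1 := Finset.card_insert_of_notMem hc
  have hC' : (insert c C₀).card + 2 = k := by omega
  obtain ⟨g1, g2, g3⟩ := (hF _).1 hFA
  have A1 : Bs N₁ (insert c C₀) a1 a2 := ⟨by omega, g2⟩
  have A2 : Bs N₂ (insert c C₀) a1 a2 := ⟨by omega, g3⟩
  -- the two colourings
  have zone : ∀ (N : Matroid E), (∀ A : Finset E, F A ≠ 0 → N.Indep (A : Set E)) →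
      Bs N (insert c C₀) a1 a2 → ∃ Z : Finset E, Disjoint Z C₀ ∧
      (∀ B, C₀ ⊆ B → F B ≠ 0 → ¬ B ⊆ C₀ ∪ Z) ∧
      (∀ B : Finset E, Disjoint B Z → ∀ e ∈ B, e ∉ C₀ → Bs N (insert c C₀) a1 e) := by
    intro N hN hA
    refine ⟨Finset.univ.filter (fun e => e ∉ C₀ ∧ ¬ Bs N (insert c C₀) a1 e), ?_, ?_, ?_⟩
    · rw [Finset.disjoint_left]
      intro e he
      exact (Finset.mem_filter.1 he).2.1
    · intro B hB hFB hsub
      obtain ⟨ha1, ha1i⟩ := hA.symm.right
      have h1 : (insert a1 (insert c C₀)).card = (insert c C₀).card + 1 :=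
        Finset.card_insert_of_notMem ha1
      have h2 := hcard B hFB
      obtain ⟨e, he, he2, hie⟩ := ha1i.augment_finset (hN B hFB) (by omega)
      have hie' : N.Indep ((insert e (insert a1 (insert c C₀)) : Finset E) : Set E) := by
        rw [Finset.coe_insert]
        exact hie
      have h3 : (insert e (insert a1 (insert c C₀))).card = (insert c C₀).card + 2 := by
        rw [Finset.card_insert_of_notMem he2, h1]
      have heC : e ∉ C₀ := fun h =>
        he2 (Finset.mem_insert_of_mem (Finset.mem_insert_of_mem h))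
      rcases Finset.mem_union.1 (hsub he) with h4 | h4
      · exact heC h4
      · exact (Finset.mem_filter.1 h4).2.2 (Bs.symm ⟨h3, hie'⟩)
    · intro B hB e he heC
      by_contra hcon
      exact Finset.disjoint_left.1 hB he (Finset.mem_filter.2 ⟨Finset.mem_univ e, heC, hcon⟩)
  obtain ⟨Z₁, z1, z2, z3⟩ := zone N₁ (fun A h => ((hF A).1 h).2.1) A1
  obtain ⟨Z₂, y1, y2, y3⟩ := zone N₂ (fun A h => ((hF A).1 h).2.2) A2
  by_cases h1 : ∃ B, C₀ ⊆ B ∧ F B ≠ 0 ∧ Disjoint B Z₁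
  swap
  · refine ⟨Z₁, z1, z2, Or.inl fun B hB hFB hd => absurd ⟨B, hB, hFB, hd⟩ h1⟩
  by_cases h2 : ∃ B, C₀ ⊆ B ∧ F B ≠ 0 ∧ Disjoint B Z₂
  swap
  · refine ⟨Z₂, y1, y2, Or.inl fun B hB hFB hd => absurd ⟨B, hB, hFB, hd⟩ h2⟩
  obtain ⟨B₁, hB₁, hFB₁, hd₁⟩ := h1
  obtain ⟨B₂, hB₂, hFB₂, hd₂⟩ := h2
  obtain ⟨p₀, -, hp₀B, -, hp₀C, -, -, hp₀n, hp₀1, hp₀2, -⟩ :=
    avoid k F P N₁ N₂ hF hP hc hC hFA hFA' hPA hPA' hB₁ hFB₁ (z3 B₁ hd₁)
  obtain ⟨q₀, -, hq₀B, -, hq₀C, -, -, hq₀n, hq₀1, hq₀2, -⟩ :=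
    avoid k F P N₂ N₁ hF' hP hc hC hFA hFA' hPA hPA' hB₂ hFB₂ (y3 B₂ hd₂)
  -- independence over `C₀`
  have sub : ∀ (N : Matroid E) (B : Finset E) (e : E), N.Indep (B : Set E) → C₀ ⊆ B → e ∈ B →
      N.Indep ((insert e C₀ : Finset E) : Set E) := by
    intro N B e h hB he
    refine h.subset ?_
    exact_mod_cast Finset.insert_subset he hB
  have hp₀i := sub N₂ B₁ p₀ ((hF B₁).1 hFB₁).2.2 hB₁ hp₀B
  have hq₀i := sub N₁ B₂ q₀ ((hF B₂).1 hFB₂).2.1 hB₂ hq₀B
  -- the hub sets are common bases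
  have hubF : ∀ p x : E, p ∉ C₀ → N₂.Indep ((insert p C₀ : Finset E) : Set E) →
      ¬ N₂.Indep ((insert p (insert c C₀) : Finset E) : Set E) →
      Bs N₁ (insert c C₀) a1 p → Bs N₁ (insert c C₀) a2 p → x ∉ insert c C₀ →
      N₁.Indep ((insert x (insert c C₀) : Finset E) : Set E) →
      N₂.Indep ((insert x (insert c C₀) : Finset E) : Set E) →
      F (insert p (insert q₀ (insert x C₀))) ≠ 0 := by
    intro p x hp hpi hpn hp1 hp2 hx hx1 hx2
    have e1 : Bs N₁ (insert c C₀) p x := gen hp1 hp2 hx hx1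
      (grid k F P N₁ N₂ hF hP hC' hFA hFA' hPA hPA' hx hx1 hx2)
    have e2 : Bs N₂ (insert c C₀) q₀ x := gen hq₀1 hq₀2 hx hx2
      (grid k F P N₂ N₁ hF' hP hC' hFA hFA' hPA hPA' hx hx2 hx1)
    have f1 := hub hc e1 hq₀C hq₀i hq₀n
    have f2 := hub hc e2 hp hpi hpn
    rw [hF]
    refine ⟨by omega, ?_, f2.2⟩
    rw [Finset.insert_comm p q₀]
    exact f1.2
  -- the reference hub set
  obtain ⟨ha1C, ha1i⟩ := A1.symm.right
  have ha1i2 := A2.symm.right.2
  have hH₀ := hubF p₀ a1 hp₀C hp₀i hp₀n hp₀1 hp₀2 ha1C ha1i ha1i2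
  have key : ∀ B, C₀ ⊆ B → F B ≠ 0 → Disjoint B Z₁ →
      (P B ↔ P (insert p₀ (insert q₀ (insert a1 C₀)))) := by
    intro B hB hFB hd
    obtain ⟨p, u, hpB, huB, hpC, huC₀, hpu, hpn, hp1, hp2, huC, hu1, hu2⟩ :=
      avoid k F P N₁ N₂ hF hP hc hC hFA hFA' hPA hPA' hB hFB (z3 B hd)
    have hpi := sub N₂ B p ((hF B).1 hFB).2.2 hB hpB
    have s1 := hubF p u hpC hpi hpn hp1 hp2 huC hu1 hu2
    have s2 := hubF p₀ u hp₀C hp₀i hp₀n hp₀1 hp₀2 huC hu1 hu2
    have c1 := hcard _ s1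
    have c2 := hcard _ hH₀
    have i1 := Finset.card_insert_le p (insert q₀ (insert u C₀))
    have i2 := Finset.card_insert_le q₀ (insert u C₀)
    have i3 := Finset.card_insert_le u C₀
    have i4 := Finset.card_insert_le p₀ (insert q₀ (insert a1 C₀))
    have i5 := Finset.card_insert_le q₀ (insert a1 C₀)
    have i6 := Finset.card_insert_le a1 C₀
    -- D₁ = C₀ + p + u, D₂ = C₀ + q₀ + u, D₃ = C₀ + p₀ + q₀
    have d1c : (insert p (insert u C₀)).card + 1 = k := by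
      rw [Finset.card_insert_of_notMem, Finset.card_insert_of_notMem huC₀]
      · omega
      · rw [Finset.mem_insert]
        tauto
    have d2c : (insert q₀ (insert u C₀)).card + 1 = k := by omega
    have hp₀q₀ : (insert p₀ (insert q₀ C₀)).card + 1 = k := by
      have j1 : (insert p₀ (insert q₀ (insert a1 C₀))) = insert a1 (insert p₀ (insert q₀ C₀)) := by
        ext z
        simp only [Finset.mem_insert]
        tauto
      rw [j1] at c2
      have j2 := Finset.card_insert_le a1 (insert p₀ (insert q₀ C₀))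
      have j3 := Finset.card_insert_le p₀ (insert q₀ C₀)
      have j4 := Finset.card_insert_le q₀ C₀
      omega
    have m1 : insert p (insert u C₀) ⊆ B :=
      Finset.insert_subset hpB (Finset.insert_subset huB hB)
    have m2 : insert p (insert u C₀) ⊆ insert p (insert q₀ (insert u C₀)) :=
      Finset.insert_subset_insert p (Finset.subset_insert q₀ _)
    have m3 : insert q₀ (insert u C₀) ⊆ insert p (insert q₀ (insert u C₀)) :=
      Finset.subset_insert p _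
    have m4 : insert q₀ (insert u C₀) ⊆ insert p₀ (insert q₀ (insert u C₀)) :=
      Finset.subset_insert p₀ _
    have m5 : ∀ x : E, insert p₀ (insert q₀ C₀) ⊆ insert p₀ (insert q₀ (insert x C₀)) :=
      fun x => Finset.insert_subset_insert p₀ (Finset.insert_subset_insert q₀
        (Finset.subset_insert x C₀))
    constructor
    · intro h
      have n1 := adjT k F P hcard hP d1c m1 m2 hFB s1 h
      have n2 := adjT k F P hcard hP d2c m3 m4 s1 s2 n1
      exact adjT k F P hcard hP hp₀q₀ (m5 u) (m5 a1) s2 hH₀ n2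
    · intro h
      have n1 := adjT k F P hcard hP hp₀q₀ (m5 a1) (m5 u) hH₀ s2 h
      have n2 := adjT k F P hcard hP d2c m4 m3 s2 s1 n1
      exact adjT k F P hcard hP d1c m2 m1 s1 hFB n2
  by_cases hPH : P (insert p₀ (insert q₀ (insert a1 C₀)))
  · exact ⟨Z₁, z1, z2, Or.inl fun B hB hFB hd => (key B hB hFB hd).2 hPH⟩
  · exact ⟨Z₁, z1, z2, Or.inr fun B hB hFB hd h => hPH ((key B hB hFB hd).1 h)⟩

end main

end Pool.Agent.H57K2
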