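import Pool.Agent.H57K2.Two

/-!
# Link sums of level three for single exchanges, over every field

Same setting as in `Two.lean`. If `P` is closed under single exchanges of common bases, then the sum
of `F` over the members of `P` which contain a given set of `k - 3` elements vanishes.
-/

set_option autoImplicit false

namespace Pool.Agent.H57K2

variable {E K : Type*} [DecidableEq E]

/-- `C + x + y` has `|C| + 2` elements and is independent in `N`. -/
def Bs (N : Matroid E) (C : Finset E) (x y : E) : Prop :=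
  (insert x (insert y C)).card = C.card + 2 ∧ N.Indep ((insert x (insert y C) : Finset E) : Set E)

theorem Bs.symm {N : Matroid E} {C : Finset E} {x y : E} (h : Bs N C x y) : Bs N C y x := by
  unfold Bs at h ⊢
  rwa [Finset.insert_comm y x C]

theorem Bs.right {N : Matroid E} {C : Finset E} {x y : E} (h : Bs N C x y) :
    y ∉ C ∧ N.Indep ((insert y C : Finset E) : Set E) := by
  refine ⟨fun hy => ?_, h.2.subset ?_⟩
  · have h1 := h.1
    rw [Finset.insert_eq_of_mem hy] at h1
    have := Finset.card_insert_le x C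
    omega
  · exact_mod_cast Finset.subset_insert x (insert y C)

theorem exchB {N : Matroid E} {C : Finset E} {x y z : E} (h : Bs N C x y) (hz : z ∉ C)
    (hzi : N.Indep ((insert z C : Finset E) : Set E)) : Bs N C x z ∨ Bs N C y z := by
  have h1 : (insert z C).card = C.card + 1 := Finset.card_insert_of_notMem hz
  obtain ⟨e, he, he2, hie⟩ := hzi.augment_finset h.2 (by rw [h.1]; omega)
  have hcard : (insert e (insert z C)).card = C.card + 2 := by
    rw [Finset.card_insert_of_notMem he2, h1]
  have hie' : N.Indep ((insert e (insert z C) : Finset E) : Set E) := by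
    rw [Finset.coe_insert]
    exact hie
  rcases Finset.mem_insert.1 he with rfl | he
  · exact Or.inl ⟨hcard, hie'⟩
  · rcases Finset.mem_insert.1 he with rfl | he
    · exact Or.inr ⟨hcard, hie'⟩
    · exact absurd (Finset.mem_insert_of_mem he) he2

/-- A generic element and an element of a cell. -/
theorem gen {N : Matroid E} {C : Finset E} {a1 a2 g x : E} (h1 : Bs N C a1 g) (h2 : Bs N C a2 g)
    (hx : x ∉ C) (hxi : N.Indep ((insert x C : Finset E) : Set E))
    (hn : ¬ (Bs N C a1 x ∧ Bs N C a2 x)) : Bs N C g x := by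
  by_cases h : Bs N C a1 x
  · have h' : ¬ Bs N C a2 x := fun h' => hn ⟨h, h'⟩
    exact (exchB h2 hx hxi).resolve_left h'
  · exact (exchB h1 hx hxi).resolve_left h

/-- The set `C₀ + r + g + x`. -/
theorem hub {N : Matroid E} {C₀ : Finset E} {c g r x : E} (hc : c ∉ C₀)
    (h : Bs N (insert c C₀) g x) (hr : r ∉ C₀)
    (hri : N.Indep ((insert r C₀ : Finset E) : Set E))
    (hrc : ¬ N.Indep ((insert r (insert c C₀) : Finset E) : Set E)) :
    (insert r (insert g (insert x C₀))).card = C₀.card + 3 ∧
      N.Indep ((insert r (insert g (insert x C₀)) : Finset E) : Set E) := by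
  have c1 : (insert c C₀).card = C₀.card + 1 := Finset.card_insert_of_notMem hc
  have c2 : (insert r C₀).card = C₀.card + 1 := Finset.card_insert_of_notMem hr
  have c3 := h.1
  -- first augmentation
  obtain ⟨e, he, he2, hie⟩ := hri.augment_finset h.2 (by rw [c3, c1, c2]; omega)
  have hie' : N.Indep ((insert e (insert r C₀) : Finset E) : Set E) := by
    rw [Finset.coe_insert]
    exact hie
  have c4 : (insert e (insert r C₀)).card = C₀.card + 2 := by
    rw [Finset.card_insert_of_notMem he2, c2]
  obtain ⟨f, hf, hf2, hif⟩ := hie'.augment_finset h.2 (by rw [c3, c1, c4]; omega)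
  have hif' : N.Indep ((insert f (insert e (insert r C₀)) : Finset E) : Set E) := by
    rw [Finset.coe_insert]
    exact hif
  have c5 : (insert f (insert e (insert r C₀))).card = C₀.card + 3 := by
    rw [Finset.card_insert_of_notMem hf2, c4]
  have mem : ∀ u : E, u ∈ insert g (insert x (insert c C₀)) → u ∉ insert r C₀ → u ≠ c →
      u = g ∨ u = x := by
    intro u hu hu2 huc
    simp only [Finset.mem_insert] at hu hu2
    tauto
  have hec : e ≠ c := by
    rintro rfl
    rw [Finset.insert_comm] at hie'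
    exact hrc hie'
  have hfc : f ≠ c := by
    rintro rfl
    refine hrc (hif'.subset ?_)
    intro u hu
    simp only [Finset.coe_insert, Set.mem_insert_iff, Finset.mem_coe] at hu ⊢
    tauto
  have he3 := mem e he he2 hec
  have hf3 := mem f hf (fun hh => hf2 (Finset.mem_insert_of_mem hh)) hfc
  have hfe : f ≠ e := fun hh => hf2 (by rw [hh]; exact Finset.mem_insert_self _ _)
  have key : insert f (insert e (insert r C₀)) = insert r (insert g (insert x C₀)) := by
    ext u
    simp only [Finset.mem_insert]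
    rcases he3 with rfl | rfl <;> rcases hf3 with rfl | rfl
    · exact absurd rfl hfe
    · tauto
    · tauto
    · exact absurd rfl hfe
  rw [key] at c5 hif'
  exact ⟨c5, hif'⟩

section main

variable [AddCommGroup K] (k : ℕ) (F : Finset E → K) (P : Finset E → Prop)

theorem adjT (hcard : ∀ A, F A ≠ 0 → A.card = k)
    (hP : ∀ A A', P A → F A ≠ 0 → F A' ≠ 0 → k ≤ (A ∩ A').card + 1 → P A')
    {D A A' : Finset E} (hD : D.card + 1 = k) (h1 : D ⊆ A) (h2 : D ⊆ A') (hA : F A ≠ 0)
    (hA' : F A' ≠ 0) (h : P A) : P A' := by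
  refine hP A A' h hA hA' ?_
  have := Finset.card_le_card (Finset.subset_inter h1 h2)
  omega

/-- No element is generic for `N₁` and independent for `N₂` modulo `C`. -/
theorem grid (N₁ N₂ : Matroid E)
    (hF : ∀ A : Finset E, F A ≠ 0 ↔
      A.card = k ∧ N₁.Indep (A : Set E) ∧ N₂.Indep (A : Set E))
    (hP : ∀ A A', P A → F A ≠ 0 → F A' ≠ 0 → k ≤ (A ∩ A').card + 1 → P A')
    {C : Finset E} {a1 a2 d1 d2 : E} (hC : C.card + 2 = k)
    (hFA : F (insert a1 (insert a2 C)) ≠ 0) (hFA' : F (insert d1 (insert d2 C)) ≠ 0)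
    (hPA : P (insert a1 (insert a2 C))) (hPA' : ¬ P (insert d1 (insert d2 C)))
    {e : E} (he : e ∉ C) (h1 : N₁.Indep ((insert e C : Finset E) : Set E))
    (h2 : N₂.Indep ((insert e C : Finset E) : Set E)) :
    ¬ (Bs N₁ C a1 e ∧ Bs N₁ C a2 e) := by
  have hcard : ∀ A, F A ≠ 0 → A.card = k := fun A h => ((hF A).1 h).1
  have comm : ∀ x y : E, insert x (insert y C) = insert y (insert x C) := fun x y =>
    Finset.insert_comm x y C
  have toF : ∀ x y : E, Bs N₁ C x y → Bs N₂ C x y → F (insert x (insert y C)) ≠ 0 := by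
    intro x y hx hy
    rw [hF]
    exact ⟨by rw [hx.1, hC], hx.2, hy.2⟩
  have ofF : ∀ x y : E, F (insert x (insert y C)) ≠ 0 → Bs N₁ C x y ∧ Bs N₂ C x y := by
    intro x y h
    obtain ⟨g1, g2, g3⟩ := (hF _).1 h
    exact ⟨⟨by omega, g2⟩, ⟨by omega, g3⟩⟩
  have adj : ∀ x y z : E, x ∉ C → F (insert x (insert y C)) ≠ 0 → F (insert x (insert z C)) ≠ 0 →
      P (insert x (insert y C)) → P (insert x (insert z C)) := by
    intro x y z hx g1 g2 g3
    refine adjT k F P hcard hP (D := insert x C) ?_ ?_ ?_ g1 g2 g3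
    · rw [Finset.card_insert_of_notMem hx]
      omega
    · exact Finset.insert_subset_insert x (Finset.subset_insert y C)
    · exact Finset.insert_subset_insert x (Finset.subset_insert z C)
  obtain ⟨A1, A2⟩ := ofF a1 a2 hFA
  obtain ⟨A1', A2'⟩ := ofF d1 d2 hFA'
  have ha1 : a1 ∉ C := A1.symm.right.1
  have ha2 : a2 ∉ C := A1.right.1
  have hd1 : d1 ∉ C := A1'.symm.right.1
  have hd2 : d2 ∉ C := A1'.right.1
  -- everything adjacent to `A` through `C + a`
  have toA : ∀ a z : E, (a = a1 ∨ a = a2) → F (insert a (insert z C)) ≠ 0 →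
      P (insert a (insert z C)) := by
    rintro a z (rfl | rfl) h
    · exact adj a a2 z ha1 hFA h hPA
    · refine adj a a1 z ha2 ?_ h ?_
      · rw [comm]
        exact hFA
      · rw [comm]
        exact hPA
  have toA' : ∀ d z : E, (d = d1 ∨ d = d2) → F (insert d (insert z C)) ≠ 0 →
      ¬ P (insert d (insert z C)) := by
    rintro d z (rfl | rfl) h h3
    · exact hPA' (adj d z d2 hd1 h hFA' h3)
    · refine hPA' ?_
      rw [comm]
      refine adj d z d1 hd2 h ?_ h3
      rw [comm]
      exact hFA'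
  rintro ⟨g1, g2⟩
  -- a common base `C + e + a`
  have hca : ∃ a, (a = a1 ∨ a = a2) ∧ F (insert a (insert e C)) ≠ 0 := by
    rcases exchB A2 he h2 with h | h
    · exact ⟨a1, Or.inl rfl, toF _ _ g1 h⟩
    · exact ⟨a2, Or.inr rfl, toF _ _ g2 h⟩
  -- the elements `d` are parallel to `a1` or `a2`
  have hdpar : ∀ d : E, (d = d1 ∨ d = d2) → Bs N₁ C d e := by
    intro d hd
    have hdC : d ∉ C := by rcases hd with rfl | rfl <;> assumption
    have hdI1 : N₁.Indep ((insert d C : Finset E) : Set E) := by
      rcases hd with rfl | rfl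
      · exact A1'.symm.right.2
      · exact A1'.right.2
    have hdI2 : N₂.Indep ((insert d C : Finset E) : Set E) := by
      rcases hd with rfl | rfl
      · exact A2'.symm.right.2
      · exact A2'.right.2
    have hn : ¬ (Bs N₁ C a1 d ∧ Bs N₁ C a2 d) := by
      rintro ⟨q1, q2⟩
      have hno : ∀ a, (a = a1 ∨ a = a2) → ¬ F (insert a (insert d C)) ≠ 0 := by
        intro a ha h
        have h3 := toA a d ha h
        rw [comm] at h3 h
        exact toA' d a hd h h3
      rcases exchB A2 hdC hdI2 with h | h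
      · exact hno a1 (Or.inl rfl) (toF _ _ q1 h)
      · exact hno a2 (Or.inr rfl) (toF _ _ q2 h)
    exact (gen g1 g2 hdC hdI1 hn).symm
  have hcd : ∃ d, (d = d1 ∨ d = d2) ∧ F (insert d (insert e C)) ≠ 0 := by
    rcases exchB A2' he h2 with h | h
    · exact ⟨d1, Or.inl rfl, toF _ _ (hdpar d1 (Or.inl rfl)) h⟩
    · exact ⟨d2, Or.inr rfl, toF _ _ (hdpar d2 (Or.inr rfl)) h⟩
  obtain ⟨a, ha, hFa⟩ := hca
  obtain ⟨d, hd, hFd⟩ := hcd
  have h3 := toA a e ha hFa
  rw [comm] at h3 hFa
  have h4 := hFd
  rw [comm] at h4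
  have h5 := adj e a d he hFa h4 h3
  rw [comm] at h5
  exact toA' d e hd hFd h5

end main

end Pool.Agent.H57K2
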