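import Mathlib

/-!
# Link sums of level one and two for single exchanges, over every field

`F` is a function on the finite subsets of `E` whose support is the set of the common independent
`k`-sets of two matroids, and all sums of `F` over the sets which contain a set with fewer than `k`
elements vanish. If `P` is closed under single exchanges inside the support, then the sums over the
members of `P` which contain a given set of `k - 1` or `k - 2` elements vanish.
-/

set_option autoImplicit false

namespace Pool.Agent.H57K2

variable {E K : Type*} [Fintype E] [DecidableEq E] [AddCommGroup K]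

/-- In a matroid: if `C + x + y` is independent (`|C| + 2` elements) and `C + z` is independent with
`z ∉ C`, then `C + z + x` or `C + z + y` is independent (and has `|C| + 2` elements). -/
theorem exch (N : Matroid E) {C : Finset E} {x y z : E}
    (hc : (insert x (insert y C)).card = C.card + 2)
    (hxy : N.Indep ((insert x (insert y C) : Finset E) : Set E)) (hzC : z ∉ C)
    (hz : N.Indep ((insert z C : Finset E) : Set E)) :
    ((insert x (insert z C)).card = C.card + 2 ∧
        N.Indep ((insert x (insert z C) : Finset E) : Set E)) ∨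
      ((insert y (insert z C)).card = C.card + 2 ∧
        N.Indep ((insert y (insert z C) : Finset E) : Set E)) := by
  have h1 : (insert z C).card = C.card + 1 := Finset.card_insert_of_notMem hzC
  obtain ⟨e, he, he2, hie⟩ := hz.augment_finset hxy (by omega)
  have hcard : (insert e (insert z C)).card = C.card + 2 := by
    rw [Finset.card_insert_of_notMem he2, h1]
  have hie' : N.Indep ((insert e (insert z C) : Finset E) : Set E) := by
    rw [Finset.coe_insert]
    exact hie
  rcases Finset.mem_insert.1 he with rfl | he
  · exact Or.inl ⟨hcard, hie'⟩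
  · rcases Finset.mem_insert.1 he with rfl | he
    · exact Or.inr ⟨hcard, hie'⟩
    · exact absurd (Finset.mem_insert_of_mem he) he2

section sums

variable (k : ℕ) (F : Finset E → K)
  (htot : ∀ C : Finset E, C.card < k → ∑ A ∈ Finset.univ.filter (fun A => C ⊆ A), F A = 0)
  (P : Finset E → Prop)

open Classical in
include htot in
/-- Level one: all common bases over a `(k - 1)`-set are adjacent. -/
theorem sum_one (hcard : ∀ A, F A ≠ 0 → A.card = k)
    (hP : ∀ A A', P A → F A ≠ 0 → F A' ≠ 0 → k ≤ (A ∩ A').card + 1 → P A')
    (D : Finset E) (hD : D.card + 1 = k) :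
    ∑ A ∈ Finset.univ.filter (fun A => D ⊆ A ∧ P A), F A = 0 := by
  by_cases h : ∃ A, D ⊆ A ∧ P A ∧ F A ≠ 0
  · obtain ⟨A, hDA, hPA, hFA⟩ := h
    rw [← htot D (by omega)]
    refine Finset.sum_subset (fun B hB => ?_) (fun B hB hB' => ?_)
    · rw [Finset.mem_filter] at hB ⊢
      exact ⟨hB.1, hB.2.1⟩
    · by_contra hFB
      rw [Finset.mem_filter] at hB hB'
      refine hB' ⟨hB.1, hB.2, hP A B hPA hFA hFB ?_⟩
      have := Finset.card_le_card (Finset.subset_inter hDA hB.2)
      omega
  · push Not at h
    refine Finset.sum_eq_zero fun B hB => ?_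
    rw [Finset.mem_filter] at hB
    exact h B hB.2.1 hB.2.2

variable (N₁ N₂ : Matroid E)
  (hF : ∀ A : Finset E, F A ≠ 0 ↔
    A.card = k ∧ N₁.Indep (A : Set E) ∧ N₂.Indep (A : Set E))

include hF in
/-- The colouring of a disconnected link of rank two. -/
theorem colour
    (hP : ∀ A A', P A → F A ≠ 0 → F A' ≠ 0 → k ≤ (A ∩ A').card + 1 → P A')
    {C A A' : Finset E} (hC : C.card + 2 = k) (hA : C ⊆ A) (hA' : C ⊆ A') (hFA : F A ≠ 0)
    (hFA' : F A' ≠ 0) (hPA : P A) (hPA' : ¬ P A') :
    ∃ Z : Finset E, Disjoint Z C ∧ ∀ B, C ⊆ B → P B → F B ≠ 0 → (B ∩ Z).card = 1 := by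
  classical
  obtain ⟨cA, iA1, iA2⟩ := (hF A).1 hFA
  obtain ⟨cA', iA1', iA2'⟩ := (hF A').1 hFA'
  -- a pair over `C`
  have pair : ∀ B : Finset E, C ⊆ B → B.card = k →
      ∃ x y, x ≠ y ∧ x ∉ C ∧ y ∉ C ∧ B = insert x (insert y C) := by
    intro B hB hk
    have h1 : (B \ C).card = 2 := by
      rw [Finset.card_sdiff_of_subset hB]
      omega
    obtain ⟨x, y, hxy, h2⟩ := Finset.card_eq_two.1 h1
    have hx : x ∈ B \ C := by rw [h2]; simp
    have hy : y ∈ B \ C := by rw [h2]; simp
    refine ⟨x, y, hxy, (Finset.mem_sdiff.1 hx).2, (Finset.mem_sdiff.1 hy).2, ?_⟩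
    have h3 : B = (B \ C) ∪ C := (Finset.sdiff_union_of_subset hB).symm
    rw [h3, h2]
    ext z
    simp [or_assoc]
  obtain ⟨a, a2, haa, haC, ha2C, rfl⟩ := pair A hA cA
  obtain ⟨d1, d2, hdd, hd1C, hd2C, rfl⟩ := pair A' hA' cA'
  have sub1 : ∀ (N : Matroid E) (x y : E), N.Indep ((insert x (insert y C) : Finset E) : Set E) →
      N.Indep ((insert x C : Finset E) : Set E) ∧ N.Indep ((insert y C : Finset E) : Set E) := by
    intro N x y h
    refine ⟨h.subset ?_, h.subset ?_⟩
    · exact_mod_cast Finset.insert_subset_insert x (Finset.subset_insert y C)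
    · exact_mod_cast Finset.subset_insert x (insert y C)
  -- two common bases which share a point over `C` are adjacent
  have adj : ∀ x y z : E, x ∉ C → F (insert x (insert y C)) ≠ 0 → F (insert x (insert z C)) ≠ 0 →
      P (insert x (insert y C)) → P (insert x (insert z C)) := by
    intro x y z hx h1 h2 h3
    refine hP _ _ h3 h1 h2 ?_
    have h4 : insert x C ⊆ insert x (insert y C) ∩ insert x (insert z C) :=
      Finset.subset_inter (Finset.insert_subset_insert x (Finset.subset_insert y C))
        (Finset.insert_subset_insert x (Finset.subset_insert z C))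
    have h5 := Finset.card_le_card h4
    rw [Finset.card_insert_of_notMem hx] at h5
    omega
  have comm : ∀ x y : E, insert x (insert y C) = insert y (insert x C) := fun x y =>
    Finset.insert_comm x y C
  -- `good N x y` : `C + x + y` is a base of `N`
  -- if `d ∈ A'` and `C + a + d` is a common base, contradiction
  have nocommon : ∀ d d' : E, d ∉ C → insert d (insert d' C) = insert d1 (insert d2 C) →
      ¬ F (insert a (insert d C)) ≠ 0 := by
    intro d d' hdC he h
    have h1 : P (insert a (insert d C)) := adj a a2 d haC hFA h hPA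
    rw [comm] at h1 h
    have h2 : F (insert d (insert d' C)) ≠ 0 := by rw [he]; exact hFA'
    have h3 := adj d a d' hdC h h2 h1
    rw [he] at h3
    exact hPA' h3
  -- some `d ∈ A'` is parallel to `a` in `N₁`
  have hpar : ∃ d d' : E, d ∉ C ∧ insert d (insert d' C) = insert d1 (insert d2 C) ∧
      ¬ ((insert a (insert d C)).card = C.card + 2 ∧
        N₁.Indep ((insert a (insert d C) : Finset E) : Set E)) := by
    by_contra hcon
    push Not at hcon
    have g1 := hcon d1 d2 hd1C rfl
    have g2 := hcon d2 d1 hd2C (comm d2 d1)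
    have haN2 := (sub1 N₂ a a2 iA2).1
    rcases exch N₂ (by omega) iA2' haC haN2 with h | h
    · rw [comm d1 a] at h
      refine nocommon d1 d2 hd1C rfl ?_
      rw [hF]
      exact ⟨by omega, g1.2, h.2⟩
    · rw [comm d2 a] at h
      refine nocommon d2 d1 hd2C (comm d2 d1) ?_
      rw [hF]
      exact ⟨by omega, g2.2, h.2⟩
  obtain ⟨d, d', hdC, hdd', hpar⟩ := hpar
  have hdN1 : N₁.Indep ((insert d C : Finset E) : Set E) := by
    rw [← hdd'] at iA1'
    exact (sub1 N₁ d d' iA1').1
  have hdN2 : N₂.Indep ((insert d C : Finset E) : Set E) := by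
    rw [← hdd'] at iA2'
    exact (sub1 N₂ d d' iA2').1
  have haN1 := (sub1 N₁ a a2 iA1).1
  refine ⟨Finset.univ.filter (fun e => e ∉ C ∧ ¬ ((insert a (insert e C)).card = C.card + 2 ∧
    N₁.Indep ((insert a (insert e C) : Finset E) : Set E))), ?_, ?_⟩
  · rw [Finset.disjoint_left]
    intro e he
    exact (Finset.mem_filter.1 he).2.1
  · intro B hB hPB hFB
    obtain ⟨cB, iB1, iB2⟩ := (hF B).1 hFB
    obtain ⟨x, y, hxy, hxC, hyC, rfl⟩ := pair B hB cB
    have h1 := exch N₁ (by omega) iB1 haC haN1
    -- not both outside
    have h2 : ¬ (((insert a (insert x C)).card = C.card + 2 ∧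
        N₁.Indep ((insert a (insert x C) : Finset E) : Set E)) ∧
        ((insert a (insert y C)).card = C.card + 2 ∧
        N₁.Indep ((insert a (insert y C) : Finset E) : Set E))) := by
      rintro ⟨hx, hy⟩
      -- `d` is not parallel to `x`, `y` in `N₁`
      have step : ∀ u : E, ((insert a (insert u C)).card = C.card + 2 ∧
          N₁.Indep ((insert a (insert u C) : Finset E) : Set E)) →
          (insert d (insert u C)).card = C.card + 2 ∧
          N₁.Indep ((insert d (insert u C) : Finset E) : Set E) := by
        intro u hu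
        rcases exch N₁ hu.1 hu.2 hdC hdN1 with h | h
        · exact absurd h hpar
        · rw [comm d u]
          exact h
      have hx' := step x hx
      have hy' := step y hy
      have fin : ∀ u u' : E, u ∉ C → insert u (insert u' C) = insert x (insert y C) →
          ¬ F (insert d (insert u C)) ≠ 0 := by
        intro u u' huC he h
        have h3 : F (insert u (insert u' C)) ≠ 0 := by rw [he]; exact hFB
        have h4 : P (insert u (insert u' C)) := by rw [he]; exact hPB
        have h5 : P (insert u (insert d C)) := by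
          refine adj u u' d huC h3 ?_ h4
          rw [comm u d]
          exact h
        rw [comm u d] at h5
        have h6 : F (insert d (insert d' C)) ≠ 0 := by rw [hdd']; exact hFA'
        have h7 := adj d u d' hdC h h6 h5
        rw [hdd'] at h7
        exact hPA' h7
      rcases exch N₂ (by omega) iB2 hdC hdN2 with h | h
      · rw [comm x d] at h
        refine fin x y hxC rfl ?_
        rw [hF]
        exact ⟨by omega, hx'.2, h.2⟩
      · rw [comm y d] at h
        refine fin y x hyC (comm y x) ?_
        rw [hF]
        exact ⟨by omega, hy'.2, h.2⟩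
    rw [comm x a, comm y a] at h1
    rcases h1 with h1 | h1
    · have h3 : ¬ ((insert a (insert y C)).card = C.card + 2 ∧
        N₁.Indep ((insert a (insert y C) : Finset E) : Set E)) := fun h => h2 ⟨h1, h⟩
      rw [Finset.card_eq_one]
      refine ⟨y, ?_⟩
      ext e
      simp only [Finset.mem_inter, Finset.mem_insert, Finset.mem_filter, Finset.mem_univ,
        true_and, Finset.mem_singleton]
      constructor
      · rintro ⟨rfl | rfl | he, heC, hne⟩
        · exact absurd h1 hne
        · rfl
        · exact absurd he heC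
      · rintro rfl
        exact ⟨Or.inr (Or.inl rfl), hyC, h3⟩
    · have h3 : ¬ ((insert a (insert x C)).card = C.card + 2 ∧
        N₁.Indep ((insert a (insert x C) : Finset E) : Set E)) := fun h => h2 ⟨h, h1⟩
      rw [Finset.card_eq_one]
      refine ⟨x, ?_⟩
      ext e
      simp only [Finset.mem_inter, Finset.mem_insert, Finset.mem_filter, Finset.mem_univ,
        true_and, Finset.mem_singleton]
      constructor
      · rintro ⟨rfl | rfl | he, heC, hne⟩
        · rfl
        · exact absurd h1 hne
        · exact absurd he heC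
      · rintro rfl
        exact ⟨Or.inl rfl, hxC, h3⟩

open Classical in
include htot hF in
/-- Level two: the sum over the members of `P` which contain a `(k - 2)`-set vanishes, in every
characteristic. -/
theorem sum_two
    (hP : ∀ A A', P A → F A ≠ 0 → F A' ≠ 0 → k ≤ (A ∩ A').card + 1 → P A')
    (C : Finset E) (hC : C.card + 2 = k) :
    ∑ A ∈ Finset.univ.filter (fun A => C ⊆ A ∧ P A), F A = 0 := by
  have hcard : ∀ A, F A ≠ 0 → A.card = k := fun A h => ((hF A).1 h).1
  by_cases h : ∃ A, C ⊆ A ∧ P A ∧ F A ≠ 0
  · obtain ⟨A, hCA, hPA, hFA⟩ := h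
    by_cases h' : ∃ A', C ⊆ A' ∧ ¬ P A' ∧ F A' ≠ 0
    · obtain ⟨A', hCA', hPA', hFA'⟩ := h'
      obtain ⟨Z, hZC, hZ⟩ := colour k F P N₁ N₂ hF hP hC hCA hCA' hFA hFA' hPA hPA'
      have h1 : ∑ x ∈ Z, ∑ B ∈ Finset.univ.filter (fun B => insert x C ⊆ B ∧ P B), F B = 0 := by
        refine Finset.sum_eq_zero fun x hx => ?_
        refine sum_one k F htot P hcard hP (insert x C) ?_
        rw [Finset.card_insert_of_notMem (Finset.disjoint_left.1 hZC hx)]
        omega
      rw [← h1]
      have h2 : ∀ x ∈ Z, ∑ B ∈ Finset.univ.filter (fun B => insert x C ⊆ B ∧ P B), F B =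
          ∑ B ∈ Finset.univ.filter (fun B => C ⊆ B ∧ P B), if x ∈ B then F B else 0 := by
        intro x _
        rw [← Finset.sum_filter, Finset.filter_filter]
        refine Finset.sum_congr (Finset.filter_congr fun B _ => ?_) fun _ _ => rfl
        rw [Finset.insert_subset_iff]
        tauto
      rw [Finset.sum_congr rfl h2, Finset.sum_comm]
      refine Finset.sum_congr rfl fun B hB => ?_
      rw [Finset.mem_filter] at hB
      by_cases hFB : F B = 0
      · simp [hFB]
      · have h3 := hZ B hB.2.1 hB.2.2 hFB
        rw [← Finset.sum_filter, Finset.sum_const]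
        have h4 : Z.filter (fun x => x ∈ B) = B ∩ Z := by
          ext x
          simp [and_comm]
        rw [h4, h3, one_smul]
    · push Not at h'
      rw [← htot C (by omega)]
      refine Finset.sum_subset (fun B hB => ?_) (fun B hB hB' => ?_)
      · rw [Finset.mem_filter] at hB ⊢
        exact ⟨hB.1, hB.2.1⟩
      · rw [Finset.mem_filter] at hB hB'
        refine h' B hB.2 fun hPB => hB' ⟨hB.1, hB.2, hPB⟩
  · push Not at h
    refine Finset.sum_eq_zero fun B hB => ?_
    rw [Finset.mem_filter] at hB
    exact h B hB.2.1 hB.2.2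

end sums

end Pool.Agent.H57K2
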